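import Mathlib

/-! Statements for the self-similar Kakeya project. -/

namespace Pool.Agent.H82Z.Kak

open MeasureTheory Filter Set

abbrev E (d : ℕ) := EuclideanSpace ℝ (Fin d)

/-- the point coded by a finite word -/
noncomputable def pt {ι V : Type} [AddCommGroup V] [Module ℝ V] (c : ι → V) (ρ : ℝ) {n : ℕ}
    (u : Fin n → ι) : V := ∑ k : Fin n, ρ ^ (k : ℕ) • c (u k)

/-- the grid cell of side `s` containing `x` -/
noncomputable def cell {d : ℕ} (s : ℝ) (x : E d) : Fin d → ℤ := fun j => ⌊x j / s⌋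

/-- `K` contains the line segments `t ↦ (a + t b, t)`, `t ∈ [t0, t1]`, for `(a, b) ∈ F`. -/
def Over {d : ℕ} (F : Set (E d × E d)) (t0 t1 : ℝ) (K : Set (E (d + 1))) : Prop :=
  ∀ p ∈ F, ∀ t ∈ Icc t0 t1, ∃ x ∈ K,
    (∀ j : Fin d, x j.castSucc = p.1 j + t * p.2 j) ∧ x (Fin.last d) = t

def S_bad : Prop := ∀ (d : ℕ) (ι : Type) [Fintype ι] (a b : ι → E d) (ρ : ℝ), 0 < ρ → ρ < 1 →
  (∀ (n : ℕ) (u u' : Fin n → ι), u ≠ u' → ρ ^ n ≤ ‖pt b ρ u - pt b ρ u'‖) →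
  ∀ j : ℕ, ∃ q : ℕ, 0 < q ∧ ∀ᵐ t : ℝ, ∃ C : ℝ, ∀ᶠ n in atTop,
    ∀ V : Submodule ℝ (E d), Module.finrank ℝ V ≤ j → ∀ Ω : Finset (Fin n → ι),
      (∀ u ∈ Ω, ∀ u' ∈ Ω, ∃ v ∈ V,
        ‖(pt a ρ u + t • pt b ρ u) - (pt a ρ u' + t • pt b ρ u') - v‖ ≤ d * ρ ^ (q * n)) →
      (Ω.card : ℝ) ≤ C * (1 / ρ) ^ (j * n)

def S_dim : Prop := ∀ (d m : ℕ), 2 ≤ m → ∀ (ρ R : ℝ), 0 < ρ → ρ < 1 →
  ∀ (e : Fin m → E d × E d) (F : Set (E d × E d)), IsClosed F → F.Nonempty →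
    (∀ p ∈ F, ‖p‖ ≤ R) → (∀ i, ∀ p ∈ F, ρ • p + e i ∈ F) →
    ∀ t0 t1 : ℝ, t0 < t1 →
      (∀ t ∈ Icc t0 t1, ∀ i i', i ≠ i' →
        ρ * (1 + 2 * R * (1 + |t|)) ≤ ‖((e i).1 + t • (e i).2) - ((e i').1 + t • (e i').2)‖) →
      ∀ K : Set (E (d + 1)), Over F t0 t1 K →
        ENNReal.ofReal (1 + Real.log m / Real.log (1 / ρ)) ≤ dimH K

def S_hom : Prop := ∀ (d : ℕ) (ι : Type) [Fintype ι] (r : ι → ℝ) (c : ι → E d × E d)
  (F : Set (E d × E d)), (∀ i, 0 < r i ∧ r i < 1) → IsCompact F →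
    F = (⋃ i, (fun p => r i • p + c i) '' F) → 0 < volume (Prod.snd '' F) →
    ∀ ε : ℝ, 0 < ε → ∀ Q : ℝ, ∃ (ρ : ℝ) (m : ℕ) (e : Fin m → E d × E d), 0 < ρ ∧ ρ ≤ 1 / 2 ∧
      (∀ i, ∀ p ∈ F, ρ • p + e i ∈ F) ∧
      (∀ i i', i ≠ i' → Q * ρ ≤ ‖(e i).2 - (e i').2‖) ∧ ρ ^ ε ≤ m * ρ ^ d

open Classical in
def S_core : Prop := ∀ (d : ℕ) (ι : Type) [Fintype ι] [Nonempty ι] (a b : ι → E d) (ρ : ℝ),
  0 < ρ → ρ < 1 →
  (∀ (n : ℕ) (u u' : Fin n → ι), u ≠ u' → ρ ^ n ≤ ‖pt b ρ u - pt b ρ u'‖) →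
  ∀ᵐ t : ℝ, ∀ ε : ℝ, 0 < ε → ∀ N : ℕ, ∃ P : ℕ, N ≤ P ∧
    (Fintype.card ι : ℝ) ^ P * Real.exp (-(ε * P)) ≤
      ((Finset.univ.image fun u : Fin P → ι =>
        cell (ρ ^ P) (pt a ρ u + t • pt b ρ u)).card : ℝ)

def S_main : Prop := ∀ (d : ℕ), 1 ≤ d → ∀ (ι : Type) [Fintype ι] (r : ι → ℝ)
  (c : ι → E d × E d) (F : Set (E d × E d)), (∀ i, 0 < r i ∧ r i < 1) → IsCompact F →
    F = (⋃ i, (fun p => r i • p + c i) '' F) → 0 < volume (Prod.snd '' F) →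
    ∀ t0 t1 : ℝ, t0 < t1 → ∀ K : Set (E (d + 1)), Over F t0 t1 K → dimH K = d + 1

def S_fin : Prop := S_core → S_dim → S_hom → S_main

/-- finitely supported natural-number measures under convolution -/
abbrev A (G : Type) := AddMonoidAlgebra ℕ G

/-- total mass -/
noncomputable def ms {β : Type} (g : β →₀ ℕ) : ℝ := g.sum fun _ n => (n : ℝ)

noncomputable abbrev M {G : Type} (f : A G) : ℝ := ms f.coeff

/-- Dirac mass -/
noncomputable abbrev dl {G : Type} (x : G) : A G := AddMonoidAlgebra.single x 1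

lemma ms_nonneg {β : Type} (g : β →₀ ℕ) : 0 ≤ ms g :=
  Finset.sum_nonneg fun _ _ => Nat.cast_nonneg _

@[simp] lemma ms_zero {β : Type} : ms (0 : β →₀ ℕ) = 0 := by simp [ms]

lemma ms_add {β : Type} (f g : β →₀ ℕ) : ms (f + g) = ms f + ms g := by
  unfold ms; exact Finsupp.sum_add_index' (by simp) (by simp)

@[simp] lemma ms_single {β : Type} (x : β) (n : ℕ) : ms (Finsupp.single x n) = n := by
  unfold ms; exact Finsupp.sum_single_index (by simp)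

lemma M_add {G : Type} (f g : A G) : M (f + g) = M f + M g := ms_add _ _

lemma M_dl {G : Type} (x : G) : M (dl x) = 1 := by simp [M]

lemma M_mul {G : Type} [AddCommGroup G] (f g : A G) : M (f * g) = M f * M g := by
  induction f using AddMonoidAlgebra.induction_linear with
  | zero => simp [M]
  | add f f' h h' => rw [add_mul, M_add, M_add, h, h', add_mul]
  | single x n =>
    induction g using AddMonoidAlgebra.induction_linear with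
    | zero => simp [M]
    | add g g' h h' => rw [mul_add, M_add, M_add, h, h', mul_add]
    | single y k =>
      rw [AddMonoidAlgebra.single_mul_single]
      simp only [M, AddMonoidAlgebra.coeff_single, ms_single, Nat.cast_mul]

lemma M_one {G : Type} [AddCommGroup G] : M (1 : A G) = 1 := by
  simp [M, AddMonoidAlgebra.one_def]

lemma M_pow {G : Type} [AddCommGroup G] (f : A G) (n : ℕ) : M (f ^ n) = M f ^ n := by
  induction n with
  | zero => simp [M_one]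
  | succ n h => rw [pow_succ, M_mul, h, pow_succ]

/-- all of `f` but a proportion `x` of its mass lies in the ideal `J` -/
def Rel {G : Type} [AddCommGroup G] (f : A G) (J : Ideal (A G)) (x : ℝ) : Prop :=
  ∃ α β : A G, f = α + β ∧ α ∈ J ∧ M β ≤ x * M f

/-- ideal generated by the two-point measures with gap near `w` -/
noncomputable def PI {d : ℕ} (w : E d) (τ : ℝ) : Ideal (A (E d)) :=
  Ideal.span {g | ∃ u : E d, ‖u - w‖ ≤ τ ∧ g = 1 + dl u}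

/-- ideal generated by the approximate progressions of length `2 ^ a` and step `w` -/
noncomputable def QI {d : ℕ} (w : E d) (τ : ℝ) (a : ℕ) : Ideal (A (E d)) :=
  Ideal.span {g | ∃ x : ℕ → E d, (∀ k < 2 ^ a, ‖x k - (k : ℝ) • w‖ ≤ 2 ^ a * τ) ∧
    g = ∑ k ∈ Finset.range (2 ^ a), dl (x k)}

def S_amp : Prop := ∀ (c : ℝ), 0 < c → ∀ a : ℕ, ∃ L : ℕ, 0 < L ∧
  ∀ (d : ℕ) (w : E d) (τ : ℝ), 0 ≤ τ → ∀ θ : A (E d), Rel θ (PI w τ) (1 - c) →
    ∀ a' ≤ a, Rel (θ ^ L) (QI w τ a') (1 / 2)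

end Pool.Agent.H82Z.Kak
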